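import Pool.Agent.helper70.BND.SpecH

/-!
# Project bnd, block H, row FCM: commutations inside `FX`
-/

set_option autoImplicit false

open scoped Topology
open Finset

namespace Pool.Agent.BND.EX

theorem FCM_fc (l : Lv) (J : ℕ) {Y X : List ℕ} (h : Y.Perm X) (v : ℕ) : fc l J Y v = fc l J X v := by
  unfold fc
  simp only [List.count_cons, List.count_append, h.count_eq v]

theorem FCM (hGDX : GDX_stmt) (hPCM : PCM_stmt) (hMKL : MKL_stmt) : FCM_stmt := by
  intro A J κ₀ κ₁ Cc Bb X X' hA hX hX0 hBb hNr hP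
  have h := hPCM A hA (Gd A.l J κ₀ κ₁ Cc Bb) X X' hP hX ((0, 0) :: Dl A.l.N J) [(0, 0)] ?_ ?_
  · have e : ∀ Y : List ℕ, FX A.l J Y = ((0, 0) :: Dl A.l.N J) ++ (vw Y ++ [(0, 0)]) := by
      intro Y
      unfold FX
      simp only [List.cons_append, List.append_assoc]
    rw [e, e]
    exact h
  · intro Y hY
    have h1 := (hGDX A J κ₀ κ₁ Cc Bb Y hA (fun x hx => hX x (hY.mem_iff.mp hx)) (fun h0 => hX0 (by
      rw [h0] at hY
      exact hY.nil_eq.symm)) hBb (by
      have : (fun v => (fc A.l J Y v : ℤ)) = fun v => (fc A.l J X v : ℤ) := by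
        funext v
        rw [FCM_fc A.l J hY v]
      rw [this]
      exact hNr)).1
    have e : FX A.l J Y = ((0, 0) :: Dl A.l.N J) ++ (vw Y ++ [(0, 0)]) := by
      unfold FX
      simp only [List.cons_append, List.append_assoc]
    rw [← e]
    exact h1
  · intro Y Z a b t hab hb ht hYZ
    obtain ⟨-, -, -, hcb, -⟩ := hMKL A hA
    obtain ⟨c1, c2, c3, c4, c5, c6⟩ := hcb a b (hab.trans hb) hb
    have h1 := (hGDX A J κ₀ κ₁ Cc Bb X hA hX hX0 hBb hNr).2 Y Z (A.cb a b) t (by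
      show A.cb a b < A.n + A.n * A.n + A.k
      omega) ht (by
      rw [c5]
      exact hYZ)
    have e : ((0, 0) :: (Dl A.l.N J ++ (vw Y ++ (A.cb a b, t) :: vw Z) ++ [(0, 0)]) : List (ℕ × ℝ)) =
        ((0, 0) :: Dl A.l.N J) ++ (vw Y ++ (A.cb a b, t) :: (vw Z ++ [(0, 0)])) := by
      simp only [List.cons_append, List.append_assoc]
    rw [← e]
    exact h1

end Pool.Agent.BND.EX
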